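import Pool.Agent.K1H80.KA.StmB

/-! # Piece RK: rank of a matrix and maximal independent sets of rows -/

set_option autoImplicit false

namespace Pool.Agent.K1H11.KB

open Pool.Agent.KA Module

theorem rk : RKStm := by
  classical
  intro K _ ι τ _ _ M S hS hmax
  have := Fintype.ofFinite ι
  have h1 : Submodule.span K (Set.range M.row) = Submodule.span K (Set.range fun i : S => M i) := by
    apply le_antisymm
    · rw [Submodule.span_le]
      rintro _ ⟨i, rfl⟩
      by_cases hi : i ∈ S
      · exact Submodule.subset_span ⟨⟨i, hi⟩, rfl⟩
      · by_contra hcon
        apply hmax i hi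
        have h2 : LinearIndepOn K (fun j => M j) (insert i S) := by
          refine (linearIndepOn_insert hi).2 ⟨hS, ?_⟩
          intro h3
          apply hcon
          rw [Set.image_eq_range] at h3
          exact h3
        exact h2
    · apply Submodule.span_mono
      rintro _ ⟨i, rfl⟩
      exact ⟨i, rfl⟩
  rw [Matrix.rank_eq_finrank_span_row, h1, finrank_span_eq_card hS, Nat.card_eq_fintype_card]

end Pool.Agent.K1H11.KB
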